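import Mathlib

/-! A polynomial vanishing on `r` parabolas `X = c_j Y^2` has degree at least `2 r`. -/

set_option autoImplicit false

namespace Pool.Agent.Helper925_KB

open MvPolynomial

variable {K : Type} [Field K]

/-- restriction to the parabola `X = c Y^2` -/
noncomputable def res (c : K) : MvPolynomial (Fin 2) K →ₐ[K] Polynomial K :=
  MvPolynomial.aeval ![Polynomial.C c * Polynomial.X ^ 2, Polynomial.X]

theorem dvd_of_res (c : K) (f : MvPolynomial (Fin 2) K) (h : res c f = 0) :
    (X 0 - C c * X 1 ^ 2 : MvPolynomial (Fin 2) K) ∣ f := by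
  set t : MvPolynomial (Fin 1) K := C c * X 0 ^ 2 with ht
  have hhom : ((uniqueAlgEquiv K (Fin 1) : MvPolynomial (Fin 1) K →+* Polynomial K)).comp
      ((Polynomial.evalRingHom t).comp
        (finSuccEquiv K 1 : MvPolynomial (Fin 2) K →+* Polynomial (MvPolynomial (Fin 1) K))) =
      (res c : MvPolynomial (Fin 2) K →+* Polynomial K) := by
    apply MvPolynomial.ringHom_ext
    · intro a
      simp [res, finSuccEquiv_apply]
    · intro i
      fin_cases i
      · simp [res, finSuccEquiv_X_zero, ht]
      · have := finSuccEquiv_X_succ (R := K) (n := 1) (j := 0)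
        simp only [Fin.succ_zero_eq_one] at this
        simp [res, this]
  have h1 : (finSuccEquiv K 1 f).IsRoot t := by
    rw [Polynomial.IsRoot.def]
    have h2 := congrArg (fun φ => φ f) hhom
    simp only [RingHom.comp_apply, RingHom.coe_coe, Polynomial.coe_evalRingHom] at h2
    rw [h] at h2
    exact (map_eq_zero_iff _ (uniqueAlgEquiv K (Fin 1)).injective).1 h2
  obtain ⟨q, hq⟩ := Polynomial.dvd_iff_isRoot.2 h1
  refine ⟨(finSuccEquiv K 1).symm q, ?_⟩
  apply (finSuccEquiv K 1).injective
  rw [map_mul, AlgEquiv.apply_symm_apply, hq]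
  congr 1
  have h3 := finSuccEquiv_X_succ (R := K) (n := 1) (j := 0)
  simp only [Fin.succ_zero_eq_one] at h3
  have e : finSuccEquiv K 1 (X 0 - C c * X 1 ^ 2 : MvPolynomial (Fin 2) K) =
      Polynomial.X - Polynomial.C t := by
    rw [map_sub, map_mul, map_pow, h3, finSuccEquiv_X_zero, ht]
    simp [finSuccEquiv_apply]
  exact e.symm

theorem parab_deg (c : K) (hc : c ≠ 0) :
    2 ≤ (X 0 - C c * X 1 ^ 2 : MvPolynomial (Fin 2) K).totalDegree := by
  have h1 : coeff (Finsupp.single 1 2) (X 0 - C c * X 1 ^ 2 : MvPolynomial (Fin 2) K) ≠ 0 := by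
    rw [coeff_sub, coeff_C_mul, coeff_X_pow, coeff_X]
    have h2 : (Finsupp.single (0 : Fin 2) 1 : Fin 2 →₀ ℕ) ≠ Finsupp.single 1 2 := by
      intro h
      have := DFunLike.congr_fun h 0
      simp at this
    rw [if_neg h2, if_pos rfl, zero_sub, mul_one]
    exact neg_ne_zero.2 hc
  have h2 := le_totalDegree (mem_support_iff.2 h1)
  simpa using h2

theorem res_parab (c c' : K) : res c' (X 0 - C c * X 1 ^ 2 : MvPolynomial (Fin 2) K) =
    Polynomial.C (c' - c) * Polynomial.X ^ 2 := by
  simp [res, sub_mul]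

theorem deg_ge (r : ℕ) (c : ℕ → K) (hc0 : ∀ i < r, c i ≠ 0)
    (hc : ∀ i < r, ∀ j < r, c i = c j → i = j)
    (f : MvPolynomial (Fin 2) K) (hf : f ≠ 0) (h : ∀ j < r, res (c j) f = 0) :
    2 * r ≤ f.totalDegree := by
  induction r generalizing f with
  | zero => simp
  | succ r ih =>
    obtain ⟨s, hs⟩ := dvd_of_res (c r) f (h r (Nat.lt_succ_self r))
    have hs0 : s ≠ 0 := by
      rintro rfl
      exact hf (by rw [hs, mul_zero])
    have hp0 : (X 0 - C (c r) * X 1 ^ 2 : MvPolynomial (Fin 2) K) ≠ 0 := by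
      intro h0
      exact hf (by rw [hs, h0, zero_mul])
    have h1 : ∀ j < r, res (c j) s = 0 := by
      intro j hj
      have h2 := h j (by omega)
      rw [hs, map_mul, res_parab] at h2
      rcases mul_eq_zero.1 h2 with h3 | h3
      · exfalso
        rcases mul_eq_zero.1 h3 with h4 | h4
        · rw [Polynomial.C_eq_zero, sub_eq_zero] at h4
          have := hc j (by omega) r (Nat.lt_succ_self r) h4
          omega
        · exact Polynomial.X_ne_zero (pow_eq_zero_iff (two_ne_zero)|>.1 h4)
      · exact h3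
    have h2 := ih (fun i hi => hc0 i (by omega)) (fun i hi j hj => hc i (by omega) j (by omega))
      s hs0 h1
    have h3 := parab_deg (c r) (hc0 r (Nat.lt_succ_self r))
    rw [hs, totalDegree_mul_of_isDomain hp0 hs0]
    omega

theorem res_natDegree (c : K) (f : MvPolynomial (Fin 2) K) :
    (res c f).natDegree ≤ 2 * f.totalDegree := by
  rw [res, MvPolynomial.aeval_def, MvPolynomial.eval₂_eq']
  apply Polynomial.natDegree_sum_le_of_forall_le
  intro m hm
  have hm2 := le_totalDegree hm
  refine (Polynomial.natDegree_mul_le).trans ?_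
  have h1 : (algebraMap K (Polynomial K) (coeff m f)).natDegree = 0 := by
    exact Polynomial.natDegree_C _
  rw [h1, zero_add, Fin.prod_univ_two]
  refine (Polynomial.natDegree_mul_le).trans ?_
  have h2 : ((![Polynomial.C c * Polynomial.X ^ 2, Polynomial.X] : Fin 2 → Polynomial K) 0 ^ m 0).natDegree
      ≤ m 0 * 2 := by
    refine (Polynomial.natDegree_pow_le).trans ?_
    apply Nat.mul_le_mul_left
    exact Polynomial.natDegree_C_mul_X_pow_le c 2
  have h3 : ((![Polynomial.C c * Polynomial.X ^ 2, Polynomial.X] : Fin 2 → Polynomial K) 1 ^ m 1).natDegree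
      ≤ m 1 := by
    refine (Polynomial.natDegree_pow_le).trans ?_
    have : ((![Polynomial.C c * Polynomial.X ^ 2, Polynomial.X] : Fin 2 → Polynomial K) 1).natDegree
        ≤ 1 := Polynomial.natDegree_X_le
    calc m 1 * _ ≤ m 1 * 1 := Nat.mul_le_mul_left _ this
      _ = m 1 := mul_one _
  have h4 : m 0 + m 1 ≤ f.totalDegree := by
    have h5 : (m.sum fun _ e => e) = m 0 + m 1 := by
      rw [Finsupp.sum_fintype _ _ (fun _ => rfl), Fin.sum_univ_two]
    omega
  omega

theorem res_eval (c y : K) (f : MvPolynomial (Fin 2) K) :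
    (res c f).eval y = MvPolynomial.eval ![c * y ^ 2, y] f := by
  have hhom : (Polynomial.evalRingHom y).comp (res c : MvPolynomial (Fin 2) K →+* Polynomial K) =
      (MvPolynomial.eval ![c * y ^ 2, y] : MvPolynomial (Fin 2) K →+* K) := by
    apply MvPolynomial.ringHom_ext
    · intro a
      simp [res]
    · intro i
      fin_cases i <;> simp [res]
  exact congrArg (fun φ => φ f) hhom

/-- if `f` vanishes at more than `2 deg f` points of the parabola, it vanishes on it -/
theorem res_eq_zero (c : K) (f : MvPolynomial (Fin 2) K) (S : Finset K)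
    (hS : 2 * f.totalDegree < S.card)
    (h : ∀ y ∈ S, MvPolynomial.eval ![c * y ^ 2, y] f = 0) : res c f = 0 := by
  apply Polynomial.eq_zero_of_natDegree_lt_card_of_eval_eq_zero' (res c f) S
  · intro y hy
    rw [res_eval]
    exact h y hy
  · exact lt_of_le_of_lt (res_natDegree c f) hS

end Pool.Agent.Helper925_KB
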