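import Pool.Agent.Helper925_KB.Poly

/-! The set of points on `r` parabolas. -/

set_option autoImplicit false

namespace Pool.Agent.Helper925_KB

open MvPolynomial

variable {p : ℕ} [Fact p.Prime]

/-- the points `(G^(-j) y^2, y)` with `y = G^n`, `n ≡ j` modulo `r` -/
def setA (r : ℕ) (G : ZMod p) : Set (Fin 2 → ZMod p) :=
  {v | ∃ n : ℕ, v 1 = G ^ n ∧ G ^ (n % r) * v 0 = (v 1) ^ 2}

/-- `G` is a primitive root and `r` divides `p - 1` -/
structure Prim (r : ℕ) (G : ZMod p) : Prop where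
  ne : G ≠ 0
  gen : ∀ y : ZMod p, y ≠ 0 → ∃ n : ℕ, y = G ^ n
  modeq : ∀ n n' : ℕ, G ^ n = G ^ n' → n ≡ n' [MOD r]
  inj : ∀ n n' : ℕ, n < p - 1 → n' < p - 1 → G ^ n = G ^ n' → n = n'

theorem exists_prim (r : ℕ) (hr : r ∣ p - 1) : ∃ G : ZMod p, Prim r G := by
  obtain ⟨g, hg⟩ := IsCyclic.exists_generator (α := (ZMod p)ˣ)
  have hord : orderOf g = p - 1 := by
    rw [orderOf_eq_card_of_forall_mem_zpowers hg, Nat.card_eq_fintype_card, ZMod.card_units]
  have hpow : ∀ n n' : ℕ, (g : ZMod p) ^ n = (g : ZMod p) ^ n' → n ≡ n' [MOD p - 1] := by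
    intro n n' h
    have h1 : g ^ n = g ^ n' := Units.ext (by push_cast; exact h)
    rw [← hord]
    exact pow_eq_pow_iff_modEq.1 h1
  refine ⟨(g : ZMod p), g.ne_zero, ?_, ?_, ?_⟩
  · intro y hy
    have h1 := hg (Units.mk0 y hy)
    rw [← mem_powers_iff_mem_zpowers] at h1
    obtain ⟨n, hn⟩ := h1
    refine ⟨n, ?_⟩
    have := congrArg (fun u : (ZMod p)ˣ => (u : ZMod p)) hn
    simp only at this
    rw [Units.val_pow_eq_pow_val, Units.val_mk0] at this
    exact this.symm
  · intro n n' h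
    exact (hpow n n' h).of_dvd hr
  · intro n n' hn hn' h
    have := hpow n n' h
    rw [Nat.ModEq, Nat.mod_eq_of_lt hn, Nat.mod_eq_of_lt hn'] at this
    exact this

theorem setA_inj {r : ℕ} {G : ZMod p} (hG : Prim r G) (v v' : Fin 2 → ZMod p)
    (hv : v ∈ setA r G) (hv' : v' ∈ setA r G) (h : v 1 = v' 1) : v = v' := by
  obtain ⟨n, h1, h2⟩ := hv
  obtain ⟨n', h1', h2'⟩ := hv'
  have h3 : G ^ n = G ^ n' := by rw [← h1, ← h1', h]
  have h4 : n % r = n' % r := hG.modeq n n' h3
  rw [h4, h, ← h2'] at h2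
  have h5 : v 0 = v' 0 := mul_left_cancel₀ (pow_ne_zero _ hG.ne) h2
  funext i
  fin_cases i
  · exact h5
  · exact h

theorem vieta {r : ℕ} {G : ZMod p} (hG : Prim r G) (a b c : ZMod p)
    (v v' : Fin 2 → ZMod p) (hv : v ∈ setA r G) (hv' : v' ∈ setA r G) (hne : v ≠ v') (j : ℕ)
    (h2 : G ^ j * v 0 = (v 1) ^ 2) (h2' : G ^ j * v' 0 = (v' 1) ^ 2)
    (hl : a * v 0 + b * v 1 = c) (hl' : a * v' 0 + b * v' 1 = c) :
    a * (v 1 * v' 1) = - (G ^ j * c) := by
  have hy : v 1 - v' 1 ≠ 0 := fun h => hne (setA_inj hG v v' hv hv' (sub_eq_zero.1 h))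
  have e1 : a * (v 1) ^ 2 + G ^ j * b * v 1 = G ^ j * c := by
    rw [← h2, ← hl]; ring
  have e2 : a * (v' 1) ^ 2 + G ^ j * b * v' 1 = G ^ j * c := by
    rw [← h2', ← hl']; ring
  have e3 : (v 1 - v' 1) * (a * (v 1 + v' 1) + G ^ j * b) = 0 := by
    linear_combination e1 - e2
  have e4 : a * (v 1 + v' 1) + G ^ j * b = 0 := (mul_eq_zero.1 e3).resolve_left hy
  linear_combination (v 1) * e4 - e1

theorem line_le {r : ℕ} (hr : 0 < r) {G : ZMod p} (hG : Prim r G) (a b c : ZMod p)
    (hab : a ≠ 0 ∨ b ≠ 0) :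
    (setA r G ∩ {v : Fin 2 → ZMod p | a * v 0 + b * v 1 = c}).ncard ≤ r + 1 := by
  classical
  set T : Finset (Fin 2 → ZMod p) := Finset.univ.filter fun v =>
    v ∈ setA r G ∧ a * v 0 + b * v 1 = c with hT
  have hST : setA r G ∩ {v : Fin 2 → ZMod p | a * v 0 + b * v 1 = c} = (T : Set (Fin 2 → ZMod p)) := by
    ext v
    simp [hT]
  rw [hST, Set.ncard_coe_finset]
  by_cases ha : a = 0
  · have hb : b ≠ 0 := hab.resolve_left (fun h => h ha)
    have : T.card ≤ 1 := by
      rw [Finset.card_le_one]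
      intro v hv v' hv'
      have h1 := (Finset.mem_filter.1 hv).2
      have h2 := (Finset.mem_filter.1 hv').2
      apply setA_inj hG v v' h1.1 h2.1
      have h3 := h1.2
      have h4 := h2.2
      rw [ha, zero_mul, zero_add] at h3 h4
      exact mul_left_cancel₀ hb (h3.trans h4.symm)
    omega
  · have hex : ∀ v : Fin 2 → ZMod p, ∃ n : ℕ, v ∈ setA r G →
        v 1 = G ^ n ∧ G ^ (n % r) * v 0 = (v 1) ^ 2 := by
      intro v
      by_cases hv : v ∈ setA r G
      · obtain ⟨n, hn⟩ := hv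
        exact ⟨n, fun _ => hn⟩
      · exact ⟨0, fun h => absurd h hv⟩
    choose idx hidx using hex
    have he : ∃ e : ℕ, c ≠ 0 → -c / a = G ^ e := by
      by_cases hc : c = 0
      · exact ⟨0, fun h => absurd hc h⟩
      · obtain ⟨e, he⟩ := hG.gen (-c / a) (div_ne_zero (neg_ne_zero.2 hc) ha)
        exact ⟨e, fun _ => he⟩
    obtain ⟨e, he⟩ := he
    have hpair : ∀ v ∈ T, ∀ v' ∈ T, v ≠ v' → idx v % r = idx v' % r →
        a * (v 1 * v' 1) = - (G ^ (idx v % r) * c) := by
      intro v hv v' hv' hne hj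
      have h1 := (Finset.mem_filter.1 hv).2
      have h2 := (Finset.mem_filter.1 hv').2
      refine vieta hG a b c v v' h1.1 h2.1 hne (idx v % r) (hidx v h1.1).2 ?_ h1.2 h2.2
      rw [hj]
      exact (hidx v' h2.1).2
    have hy0 : ∀ v ∈ T, v 1 ≠ 0 := by
      intro v hv
      rw [(hidx v (Finset.mem_filter.1 hv).2.1).1]
      exact pow_ne_zero _ hG.ne
    have hclass : ∀ v ∈ T, ∀ v' ∈ T, v ≠ v' → idx v % r = idx v' % r → idx v % r = e % r := by
      intro v hv v' hv' hne hj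
      have h1 := hpair v hv v' hv' hne hj
      have hc : c ≠ 0 := by
        rintro rfl
        rw [mul_zero, neg_zero] at h1
        exact mul_ne_zero ha (mul_ne_zero (hy0 v hv) (hy0 v' hv')) h1
      have h2 := he hc
      have h3 : v 1 * v' 1 = G ^ (idx v % r) * (-c / a) := by
        field_simp
        linear_combination h1
      rw [h2, (hidx v (Finset.mem_filter.1 hv).2.1).1, (hidx v' (Finset.mem_filter.1 hv').2.1).1,
        ← pow_add, ← pow_add] at h3
      have h4 := hG.modeq _ _ h3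
      have h5 : idx v + idx v' ≡ idx v % r + idx v % r [MOD r] := by
        apply Nat.ModEq.add
        · exact (Nat.mod_modEq _ _).symm
        · rw [hj]; exact (Nat.mod_modEq _ _).symm
      have h6 : idx v % r + idx v % r ≡ idx v % r + e [MOD r] := h5.symm.trans h4
      have h7 := Nat.ModEq.add_left_cancel' _ h6
      rw [Nat.ModEq, Nat.mod_mod] at h7
      exact h7
    have hfib : ∀ j ∈ Finset.range r, (T.filter fun v => idx v % r = j).card ≤
        1 + if j = e % r then 1 else 0 := by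
      intro j _
      by_cases hj : j = e % r
      · rw [if_pos hj]
        by_contra hlt
        push Not at hlt
        obtain ⟨x, hx, y, hy, z, hz, hxy, hxz, hyz⟩ := Finset.two_lt_card.1 hlt
        rw [Finset.mem_filter] at hx hy hz
        have h1 := hpair x hx.1 y hy.1 hxy (hx.2.trans hy.2.symm)
        have h2 := hpair x hx.1 z hz.1 hxz (hx.2.trans hz.2.symm)
        have h3 : a * (x 1 * y 1) = a * (x 1 * z 1) := h1.trans h2.symm
        have h4 := mul_left_cancel₀ (hy0 x hx.1) (mul_left_cancel₀ ha h3)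
        exact hyz (setA_inj hG y z (Finset.mem_filter.1 hy.1).2.1 (Finset.mem_filter.1 hz.1).2.1 h4)
      · rw [if_neg hj, add_zero, Finset.card_le_one]
        intro x hx y hy
        rw [Finset.mem_filter] at hx hy
        by_contra hne
        have h1 := hclass x hx.1 y hy.1 hne (hx.2.trans hy.2.symm)
        exact hj (hx.2.symm.trans h1)
    have hmaps : ∀ v ∈ T, idx v % r ∈ Finset.range r := fun v _ =>
      Finset.mem_range.2 (Nat.mod_lt _ hr)
    rw [Finset.card_eq_sum_card_fiberwise hmaps]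
    refine (Finset.sum_le_sum hfib).trans ?_
    rw [Finset.sum_add_distrib, Finset.sum_const, Finset.card_range, smul_eq_mul, mul_one,
      Finset.sum_ite_eq', if_pos (Finset.mem_range.2 (Nat.mod_lt _ hr))]

theorem miss_ge {r : ℕ} (hr : 0 < r) {G : ZMod p} (hG : Prim r G) (m : ℕ) (hm : r * m = p - 1)
    (f : MvPolynomial (Fin 2) (ZMod p)) (hf : f ≠ 0) (hd : f.totalDegree ≤ 2 * r - 1) :
    m ≤ (setA r G ∩ {v : Fin 2 → ZMod p | MvPolynomial.eval v f ≠ 0}).ncard + 2 * (2 * r - 1) := by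
  classical
  have hc0 : ∀ i < r, (G ^ i)⁻¹ ≠ 0 := fun i _ => inv_ne_zero (pow_ne_zero _ hG.ne)
  have hcinj : ∀ i < r, ∀ j < r, (G ^ i)⁻¹ = (G ^ j)⁻¹ → i = j := by
    intro i hi j hj h
    have h1 := hG.modeq _ _ (inv_injective h)
    rwa [Nat.ModEq, Nat.mod_eq_of_lt hi, Nat.mod_eq_of_lt hj] at h1
  have hex : ∃ j < r, res ((G ^ j)⁻¹) f ≠ 0 := by
    by_contra hno
    push Not at hno
    have := deg_ge r (fun j => (G ^ j)⁻¹) hc0 hcinj f hf hno
    omega
  obtain ⟨j, hj, hjf⟩ := hex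
  set H : Finset (ZMod p) := (Finset.range m).image fun t => G ^ (j + r * t) with hH
  have hHc : H.card = m := by
    rw [hH, Finset.card_image_of_injOn, Finset.card_range]
    intro t ht t' ht' h
    simp only [Finset.coe_range, Set.mem_Iio] at ht ht'
    have hb : ∀ s, s < m → j + r * s < p - 1 := by
      intro s hs
      rw [← hm]
      calc j + r * s < r + r * s := by omega
        _ = r * (s + 1) := by ring
        _ ≤ r * m := Nat.mul_le_mul_left r hs
    have h1 := hG.inj _ _ (hb t ht) (hb t' ht') h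
    have h2 : r * t = r * t' := by omega
    exact Nat.eq_of_mul_eq_mul_left hr h2
  set Z := H.filter fun y => MvPolynomial.eval ![(G ^ j)⁻¹ * y ^ 2, y] f = 0 with hZ
  have hZc : Z.card ≤ 2 * (2 * r - 1) := by
    by_contra hlt
    push Not at hlt
    apply hjf
    apply res_eq_zero _ f Z
    · omega
    · intro y hy
      exact (Finset.mem_filter.1 hy).2
  have hsub : (H.filter fun y => ¬ MvPolynomial.eval ![(G ^ j)⁻¹ * y ^ 2, y] f = 0).card ≤
      (setA r G ∩ {v : Fin 2 → ZMod p | MvPolynomial.eval v f ≠ 0}).ncard := by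
    rw [← Set.ncard_coe_finset]
    apply Set.ncard_le_ncard_of_injOn (fun y => ![(G ^ j)⁻¹ * y ^ 2, y])
    · intro y hy
      rw [Finset.mem_coe, Finset.mem_filter, hH, Finset.mem_image] at hy
      obtain ⟨⟨t, _, rfl⟩, h2⟩ := hy
      refine ⟨⟨j + r * t, rfl, ?_⟩, h2⟩
      rw [Nat.add_mul_mod_self_left, Nat.mod_eq_of_lt hj]
      simp only [Matrix.cons_val_zero, Matrix.cons_val_one]
      rw [← mul_assoc, mul_inv_cancel₀ (pow_ne_zero _ hG.ne), one_mul]
    · intro y _ y' _ h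
      have := congrFun h 1
      simpa using this
  have h1 : Z.card + (H.filter fun y =>
      ¬ MvPolynomial.eval ![(G ^ j)⁻¹ * y ^ 2, y] f = 0).card = H.card :=
    Finset.card_filter_add_card_filter_not (s := H)
      (fun y => MvPolynomial.eval ![(G ^ j)⁻¹ * y ^ 2, y] f = 0)
  omega

end Pool.Agent.Helper925_KB
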